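import Pool.Agent.Helper43.TP.Comp

set_option autoImplicit false

/-!
MP_a41846_al, Q1: for every `r` the set of potentially partially positive words of the free group of rank `r`
is decidable.

A word over the alphabet of the basis letters and their inverses is a `List (Fin r × Bool)`; `(a, true)` is the
basis letter `a` and `(a, false)` its inverse; `FreeGroup.toWord` is the reduced word of an element.
-/

namespace Pool.Agent.Results.MP_a41846_al.ThreePDecidable

theorem result (r : ℕ) :
    ComputablePred (fun w : List (Fin r × Bool) =>
      ∃ (φ : FreeGroup (Fin r) ≃* FreeGroup (Fin r)) (a : Fin r),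
        (a, true) ∈ (φ (FreeGroup.mk w)).toWord ∧ (a, false) ∉ (φ (FreeGroup.mk w)).toWord) := by
  have h := Pool.Agent.Helper43.TP.tpos_computable r
  have e : (fun w : List (Fin r × Bool) =>
      ∃ (φ : FreeGroup (Fin r) ≃* FreeGroup (Fin r)) (a : Fin r),
        (a, true) ∈ (φ (FreeGroup.mk w)).toWord ∧ (a, false) ∉ (φ (FreeGroup.mk w)).toWord) =
      fun w : List (Fin r × Bool) => Pool.Agent.Helper43.TP.TPos (FreeGroup.mk w : FreeGroup (Fin r)) := by
    funext w
    exact propext (Pool.Agent.Helper43.TP.threeP_iff _)
  rw [e]
  exact h

end Pool.Agent.Results.MP_a41846_al.ThreePDecidable
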